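import Pool.Agent.Helper50.AY.St
import Pool.Agent.Helper84.GD.M_SD

set_option autoImplicit false

namespace Pool.Agent.Helper42.AY

open Pool.Agent.Helper50.AY Pool.Agent.Helper43.GD Polynomial
open Pool.Agent.Helper84.GD (qs qs_E qs_F qs_weyl rp)

private theorem qs_rga {L : Type} [CommRing L] {p k : ℕ} {x : Lˣ} (hR : RgA L p k x) (I : Ideal L) :
    RgA (L ⧸ I) p k (Units.map (Ideal.Quotient.mk I).toMonoidHom x) := by
  have hx : ((Units.map (Ideal.Quotient.mk I).toMonoidHom x : (L ⧸ I)ˣ) : L ⧸ I) =
      Ideal.Quotient.mk I (x : L) := rfl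
  have := hR.fin
  refine ⟨Finite.of_surjective _ (Ideal.Quotient.mk_surjective (I := I)), hR.prime, hR.five, ?_, ?_,
    ?_⟩
  · rw [← map_natCast (Ideal.Quotient.mk I), hR.char, map_zero]
  · have h1 := congrArg (Ideal.Quotient.mk I) hR.as
    rw [map_mul, map_add, map_mul, map_pow, map_one, map_ofNat] at h1
    rw [hx]
    exact h1
  · intro N h1 h2 y
    obtain ⟨a, rfl⟩ := Ideal.Quotient.mk_surjective y
    have h3 := hR.gn (N.comap (Ideal.Quotient.mk I).toAddMonoidHom) (by
      rw [AddSubgroup.mem_comap]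
      exact h1) (by
      intro z hz
      rw [AddSubgroup.mem_comap] at hz ⊢
      have := h2 _ hz
      rw [hx] at this
      exact this) a
    rw [AddSubgroup.mem_comap] at h3
    exact h3

theorem hSDA : StSDA := by
  intro L A _ _ s p k x hR hw1 hwx ε hε hε1 hF h2 h3
  have hfin := hR.fin
  have hcard : Nat.card (L ⧸ Ideal.span {1 - ε}) < Nat.card L := by
    have hsurj : Function.Surjective (Ideal.Quotient.mk (Ideal.span {1 - ε})) :=
      Ideal.Quotient.mk_surjective
    refine lt_of_le_of_ne (Nat.card_le_card_of_surjective _ hsurj) ?_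
    intro h
    have hfq : Finite (L ⧸ Ideal.span {1 - ε}) := Finite.of_surjective _ hsurj
    have hb : Function.Bijective (Ideal.Quotient.mk (Ideal.span {1 - ε})) := by
      cases nonempty_fintype L
      cases nonempty_fintype (L ⧸ Ideal.span {1 - ε})
      rw [Fintype.bijective_iff_surjective_and_card]
      refine ⟨hsurj, ?_⟩
      rw [← Nat.card_eq_fintype_card, ← Nat.card_eq_fintype_card, h]
    have h0 : Ideal.Quotient.mk (Ideal.span {1 - ε}) (1 - ε) =
        Ideal.Quotient.mk (Ideal.span {1 - ε}) 0 := by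
      rw [map_zero, Ideal.Quotient.eq_zero_iff_mem]
      exact Ideal.mem_span_singleton_self _
    have h1 := hb.1 h0
    exact hε1 (sub_eq_zero.mp h1).symm
  have hmain := hF (L ⧸ Ideal.span {1 - ε})
    (Units.map (Ideal.Quotient.mk (Ideal.span {1 - ε})).toMonoidHom x) (qs_rga hR _) hcard A
    (qs s hε) ?_ (qs_weyl s hε h2 h3 hwx)
  · have e : Subgroup.closure (Set.range (fun a => s.E (ε * a)) ∪
        Set.range (fun a => s.F (ε * a))) = (qs s hε).gp := by
      unfold Sys.gp
      have e1 : Set.range (fun a => s.E (ε * a)) = Set.range (qs s hε).E := by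
        ext g
        constructor
        · rintro ⟨a, rfl⟩
          exact ⟨Ideal.Quotient.mk _ a, qs_E s hε a⟩
        · rintro ⟨y, rfl⟩
          exact ⟨rp _ y, rfl⟩
      have e2 : Set.range (fun a => s.F (ε * a)) = Set.range (qs s hε).F := by
        ext g
        constructor
        · rintro ⟨a, rfl⟩
          exact ⟨Ideal.Quotient.mk _ a, qs_F s hε a⟩
        · rintro ⟨y, rfl⟩
          exact ⟨rp _ y, rfl⟩
      rw [e1, e2]
    rw [e]
    exact hmain
  · have := qs_weyl s hε h2 h3 hw1
    rwa [map_one] at this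

end Pool.Agent.Helper42.AY
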